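import Pool.Agent.H598.FQ.Count2

/-!
# The number of solutions of `∑ f_i(x_i) = m` in `2k` variables, `f_i` of degree `k`
-/

namespace Pool.Agent.H598.FG

open Finset Polynomial
open Pool.Agent.H598.FQ

/-- Exponent vector of the monomial `∏ l, x (i, g l)`. -/
def exl {k P l : ℕ} (i : Fin (2 * k)) (g : Fin l → Fin (P + 1)) :
    Fin (2 * k) × Fin (P + 1) → ℕ := ∑ r, Pi.single (i, g r) 1

/-- The base weight, now dominating monomials of lower degree. -/
def base' (k P : ℕ) : ℤ := k * base k P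

/-- The weight of a variable. -/
def wv' (k P : ℕ) (v : Fin (2 * k) × Fin (P + 1)) : ℕ := (base' k P - cost k P v.1 v.2).toNat

lemma cost_nonneg (k P i j : ℕ) : 0 ≤ cost k P i j := by
  unfold cost
  have := hh_nonneg k P i j
  positivity

lemma base_pos {k : ℕ} (P : ℕ) (hk : 0 < k) : 0 < base k P := by
  have h1 := cost_lt_base (P := P) hk 0 0 (Nat.zero_le _)
  have h2 := cost_nonneg k P 0 0
  linarith

lemma base_le_base' {k : ℕ} (P : ℕ) (hk : 0 < k) : base k P ≤ base' k P := by
  unfold base'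
  have h1 : (1 : ℤ) ≤ k := by exact_mod_cast hk
  have h2 := base_pos P hk
  nlinarith

lemma wv'_cast {k P : ℕ} (hk : 0 < k) (v : Fin (2 * k) × Fin (P + 1)) :
    (wv' k P v : ℤ) = base' k P - cost k P v.1 v.2 := by
  unfold wv'
  rw [Int.toNat_of_nonneg]
  have := cost_lt_base (P := P) hk v.1 v.2 (by have := v.2.2; omega)
  have h2 := base_le_base' P hk
  linarith

lemma wv'_pos {k P : ℕ} (hk : 0 < k) (v : Fin (2 * k) × Fin (P + 1)) : 0 < wv' k P v := by
  have h := wv'_cast hk v
  have := cost_lt_base (P := P) hk v.1 v.2 (by have := v.2.2; omega)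
  have h3 := base_le_base' P hk
  have h2 : (0 : ℤ) < (wv' k P v : ℤ) := by linarith
  exact_mod_cast h2

lemma wt_exl {k P l : ℕ} (hk : 0 < k) (i : Fin (2 * k)) (g : Fin l → Fin (P + 1)) :
    (wt (wv' k P) (exl i g) : ℤ) = l * base' k P - ∑ r, cost k P i (g r) := by
  unfold exl
  rw [wt_sum]
  push_cast
  have : ∀ r, ((wt (wv' k P) (Pi.single (i, g r) 1) : ℕ) : ℤ) = base' k P - cost k P i (g r) := by
    intro r
    rw [wt_single, wv'_cast hk]
  rw [Finset.sum_congr rfl (fun r _ => this r), Finset.sum_sub_distrib]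
  simp

/-- The designated monomial. -/
def dml (k P : ℕ) (hk : 0 < k) (t : Fin (k * P + 1)) : Fin (2 * k) × Fin (P + 1) → ℕ :=
  exl (di k P hk t) (df k P hk t)

lemma dml_eq (k P : ℕ) (hk : 0 < k) (t : Fin (k * P + 1)) : dml k P hk t = dm k P hk t := rfl

lemma wt_lt' {k P : ℕ} (hk : 0 < k) (t : Fin (k * P + 1)) (i : Fin (2 * k))
    (f : Fin k → Fin (P + 1)) (hs : ∑ l, (f l : ℕ) = t.1)
    (hne : ¬ (i = di k P hk t ∧ ∀ l, (f l : ℕ) = t.1 / k ∨ (f l : ℕ) = t.1 / k + 1)) :
    wt (wv' k P) (exl i f) < wt (wv' k P) (dml k P hk t) := by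
  have h1 := wt_exl hk i f
  have h2 := wt_exl hk (di k P hk t) (df k P hk t)
  rw [cost_bal hk t _ (df_bal hk t) (df_sum hk t)] at h2
  have hs' : ∑ l, (f l : ℕ) = k * (t.1 / k) + t.1 % k := by rw [Nat.div_add_mod]; exact hs
  have h3 := minCost_lt (k := k) hk (P := P) (j := t.1 / k) (a := t.1 % k) (i := i)
    (Nat.mod_lt _ hk) (div_le hk t) (fun ha => div_lt hk t ha) i.2 (fun l => (f l : ℕ)) hs' (by
      rintro ⟨h4, h5⟩
      apply hne
      refine ⟨?_, h5⟩
      apply Fin.ext
      rw [h4, Nat.div_add_mod]; rfl)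
  have h6 : ((wt (wv' k P) (exl i f) : ℕ) : ℤ) < (wt (wv' k P) (dml k P hk t) : ℕ) := by
    unfold dml
    rw [h1, h2]
    linarith
  exact_mod_cast h6

/-- Monomials of lower degree are lighter. -/
lemma wt_lt_low {k P l : ℕ} (hk : 0 < k) (hl : l < k) (t : Fin (k * P + 1)) (i : Fin (2 * k))
    (g : Fin l → Fin (P + 1)) :
    wt (wv' k P) (exl i g) < wt (wv' k P) (dml k P hk t) := by
  have h1 := wt_exl hk i g
  have h2 := wt_exl hk (di k P hk t) (df k P hk t)
  have h3 : 0 ≤ ∑ r, cost k P i (g r) := Finset.sum_nonneg (fun _ _ => cost_nonneg _ _ _ _)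
  have h4 : ∑ r, cost k P (di k P hk t) (df k P hk t r) < k * base k P := by
    calc ∑ r, cost k P (di k P hk t) (df k P hk t r)
        < ∑ _r : Fin k, base k P := by
          apply Finset.sum_lt_sum_of_nonempty
          · exact ⟨⟨0, hk⟩, Finset.mem_univ _⟩
          · intro r _
            exact cost_lt_base hk _ _ (by have := (df k P hk t r).2; omega)
      _ = k * base k P := by simp
  have hb := base_pos P hk
  have hb' : 0 < base' k P := lt_of_lt_of_le hb (base_le_base' P hk)
  have hlk : (l : ℤ) + 1 ≤ k := by exact_mod_cast hl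
  have h6 : ((wt (wv' k P) (exl i g) : ℕ) : ℤ) < (wt (wv' k P) (dml k P hk t) : ℕ) := by
    unfold dml
    rw [h1, h2]
    have h7 : base' k P = k * base k P := rfl
    have h8 : (l : ℤ) * base' k P + base' k P ≤ k * base' k P := by nlinarith
    linarith
  exact_mod_cast h6

lemma wt_dml_pos {k P : ℕ} (hk : 0 < k) (t : Fin (k * P + 1)) :
    0 < wt (wv' k P) (dml k P hk t) := by
  unfold dml exl
  rw [wt_sum]
  apply Finset.sum_pos
  · intro l _
    rw [wt_single]
    exact wv'_pos hk _
  · exact ⟨⟨0, hk⟩, Finset.mem_univ _⟩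

variable {F : Type*} [Field F]

lemma mon_exl {k P l : ℕ} (Z : Set (Fin (2 * k) × Fin (P + 1) → F)) (i : Fin (2 * k))
    (g : Fin l → Fin (P + 1)) :
    mon Z (exl i g) = fun z => ∏ r, z.1 (i, g r) := by
  unfold exl
  rw [mon_sum]
  funext z
  rw [Finset.prod_apply]
  apply Finset.prod_congr rfl
  intro l _
  rw [mon_single]

/-- The zero set of the equation. -/
def zsetG (k P : ℕ) (f : Fin (2 * k) → F[X]) (m : F[X]) :
    Set (Fin (2 * k) × Fin (P + 1) → F) :=
  {x | ∑ i, (f i).comp (pol (fun j => x (i, j))) = m}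

lemma comp_eq_sum {k : ℕ} {f : F[X]} (hf : f.natDegree = k) (x : F[X]) :
    f.comp x = ∑ l ∈ Finset.range (k + 1), C (f.coeff l) * x ^ l := by
  rw [comp, eval₂_eq_sum_range, hf]

lemma dml_mem_span {k P : ℕ} (hk : 0 < k) (hch : ∀ a, a ≤ k → ((k.choose a : ℕ) : F) ≠ 0)
    (f : Fin (2 * k) → F[X]) (hf : ∀ i, (f i).natDegree = k) (m : F[X])
    (t : Fin (k * P + 1)) :
    mon (zsetG k P f m) (dml k P hk t) ∈ Submodule.span F
      (mon (zsetG k P f m) '' {e | wt (wv' k P) e < wt (wv' k P) (dml k P hk t)}) := by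
  classical
  set Z := zsetG k P f m with hZ
  set c : Fin (2 * k) → F := fun i => (f i).coeff k with hc
  have hc0 : ∀ i, c i ≠ 0 := by
    intro i
    have h1 : (f i).leadingCoeff ≠ 0 := by
      rw [leadingCoeff_ne_zero]
      rintro h0
      have := hf i
      rw [h0, natDegree_zero] at this
      omega
    rw [leadingCoeff, hf i] at h1
    exact h1
  set i₀ := di k P hk t with hi₀
  set bal : (Fin k → Fin (P + 1)) → Prop :=
    fun f => ∀ l, (f l : ℕ) = t.1 / k ∨ (f l : ℕ) = t.1 / k + 1 with hbal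
  set D : Finset (Fin k → Fin (P + 1)) := Finset.univ.filter (fun f => ∑ l, (f l : ℕ) = t.1)
    with hD
  -- the lower part
  set Lo : Z → F := ∑ i, ∑ l ∈ Finset.range k, ∑ g : Fin l → Fin (P + 1),
    (if ∑ r, (g r : ℕ) = t.1 then (f i).coeff l else 0) • mon Z (exl i g) with hLo
  -- the relation
  have hrel : ∑ i, ∑ g ∈ D, c i • mon Z (exl i g) + Lo = m.coeff t.1 • mon Z 0 := by
    funext z
    have hz : ∑ i, (f i).comp (pol (fun j => z.1 (i, j))) = m := z.2
    have h1 := congrArg (fun p => p.coeff t.1) hz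
    have h2 : ∀ i, ((f i).comp (pol (fun j => z.1 (i, j)))).coeff t.1
        = (∑ l ∈ Finset.range k, (f i).coeff l * ∑ g : Fin l → Fin (P + 1),
          if ∑ r, (g r : ℕ) = t.1 then ∏ r, z.1 (i, g r) else 0)
          + c i * ∑ g : Fin k → Fin (P + 1),
          if ∑ r, (g r : ℕ) = t.1 then ∏ r, z.1 (i, g r) else 0 := by
      intro i
      rw [comp_eq_sum (hf i), Polynomial.finsetSum_coeff, Finset.sum_range_succ]
      simp only [coeff_C_mul, coeff_pol_pow]
      rfl
    simp only [Polynomial.finsetSum_coeff, h2] at h1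
    rw [Pi.add_apply, hLo, Finset.sum_apply, Finset.sum_apply]
    simp only [Finset.sum_apply, Pi.smul_apply, smul_eq_mul, mon_zero, Pi.one_apply, mul_one]
    rw [← h1, Finset.sum_add_distrib, add_comm]
    congr 1
    · apply Finset.sum_congr rfl
      intro i _
      apply Finset.sum_congr rfl
      intro l _
      rw [Finset.mul_sum]
      apply Finset.sum_congr rfl
      intro g _
      rw [mon_exl]
      by_cases h : ∑ r, (g r : ℕ) = t.1
      · rw [if_pos h, if_pos h]
      · rw [if_neg h, if_neg h, zero_mul, mul_zero]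
    · apply Finset.sum_congr rfl
      intro i _
      rw [Finset.mul_sum, hD, Finset.sum_filter]
      apply Finset.sum_congr rfl
      intro g _
      by_cases h : ∑ l, (g l : ℕ) = t.1
      · rw [if_pos h, if_pos h, mon_exl]
      · rw [if_neg h, if_neg h, mul_zero]
  -- good terms
  have hgood : ∑ g ∈ D.filter bal, c i₀ • mon Z (exl i₀ g)
      = (c i₀ * ((k.choose (t.1 % k) : ℕ) : F)) • mon Z (dml k P hk t) := by
    have h1 : ∀ g ∈ D.filter bal, c i₀ • mon Z (exl i₀ g) = c i₀ • mon Z (dml k P hk t) := by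
      intro g hg
      rw [Finset.mem_filter, hD, Finset.mem_filter] at hg
      congr 2
      funext v
      have e1 := ex_bal (j := t.1 / k) (a := t.1 % k) (Nat.mod_lt _ hk).le i₀ g hg.2
        (by rw [Nat.div_add_mod]; exact hg.1.2) v
      have e2 := ex_bal (j := t.1 / k) (a := t.1 % k) (Nat.mod_lt _ hk).le i₀ _ (df_bal hk t)
        (df_sum hk t) v
      have e3 : exl i₀ g v = ex i₀ g v := rfl
      have e4 : dml k P hk t v = ex i₀ (df k P hk t) v := rfl
      rw [e3, e4, e1, e2]
    rw [Finset.sum_congr rfl h1, Finset.sum_const]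
    have h2 : (D.filter bal).card = k.choose (t.1 % k) := by
      rw [← card_good (P := P) (j := t.1 / k) (a := t.1 % k) (div_le hk t)
        (fun ha => div_lt hk t ha)]
      congr 1
      ext g
      rw [hD, Finset.mem_filter, Finset.mem_filter, Finset.mem_filter, Nat.div_add_mod, hbal]
      tauto
    rw [h2, ← Nat.cast_smul_eq_nsmul F, smul_smul]
    congr 1
    ring
  have hcne : c i₀ * ((k.choose (t.1 % k) : ℕ) : F) ≠ 0 :=
    mul_ne_zero (hc0 _) (hch _ (Nat.mod_lt _ hk).le)
  -- split the sum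
  have hsplit : ∑ i, ∑ g ∈ D, c i • mon Z (exl i g)
      = ∑ g ∈ D.filter bal, c i₀ • mon Z (exl i₀ g)
        + (∑ g ∈ D.filter (fun g => ¬ bal g), c i₀ • mon Z (exl i₀ g)
        + ∑ i ∈ Finset.univ.erase i₀, ∑ g ∈ D, c i • mon Z (exl i g)) := by
    rw [← Finset.add_sum_erase _ _ (Finset.mem_univ i₀),
      ← Finset.sum_filter_add_sum_filter_not D bal, add_assoc]
  have hmain : (c i₀ * ((k.choose (t.1 % k) : ℕ) : F)) • mon Z (dml k P hk t)
      = m.coeff t.1 • mon Z 0 - Lo
        - (∑ g ∈ D.filter (fun g => ¬ bal g), c i₀ • mon Z (exl i₀ g)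
        + ∑ i ∈ Finset.univ.erase i₀, ∑ g ∈ D, c i • mon Z (exl i g)) := by
    rw [← hgood, ← hrel, hsplit]
    abel
  have hmem : (c i₀ * ((k.choose (t.1 % k) : ℕ) : F)) • mon Z (dml k P hk t) ∈
      Submodule.span F (mon Z '' {e | wt (wv' k P) e < wt (wv' k P) (dml k P hk t)}) := by
    rw [hmain]
    apply Submodule.sub_mem
    · apply Submodule.sub_mem
      · apply Submodule.smul_mem
        apply Submodule.subset_span
        refine ⟨0, ?_, rfl⟩
        change wt (wv' k P) 0 < _
        rw [wt_zero]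
        exact wt_dml_pos hk t
      · rw [hLo]
        apply Submodule.sum_mem
        intro i _
        apply Submodule.sum_mem
        intro l hl
        apply Submodule.sum_mem
        intro g _
        apply Submodule.smul_mem
        apply Submodule.subset_span
        exact ⟨_, wt_lt_low hk (Finset.mem_range.1 hl) t i g, rfl⟩
    · apply Submodule.add_mem
      · apply Submodule.sum_mem
        intro g hg
        rw [Finset.mem_filter, hD, Finset.mem_filter] at hg
        apply Submodule.smul_mem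
        apply Submodule.subset_span
        exact ⟨_, wt_lt' hk t i₀ g hg.1.2 (fun h => hg.2 h.2), rfl⟩
      · apply Submodule.sum_mem
        intro i hi
        apply Submodule.sum_mem
        intro g hg
        rw [hD, Finset.mem_filter] at hg
        apply Submodule.smul_mem
        apply Submodule.subset_span
        exact ⟨_, wt_lt' hk t i g hg.2 (fun h => (Finset.ne_of_mem_erase hi) h.1), rfl⟩
  have := Submodule.smul_mem _ (c i₀ * ((k.choose (t.1 % k) : ℕ) : F))⁻¹ hmem
  rwa [smul_smul, inv_mul_cancel₀ hcne, one_smul] at this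

/-- The number of solutions in `2k` variables. -/
theorem card_zsetG [Fintype F] {k P : ℕ} (hk : 0 < k)
    (hch : ∀ a, a ≤ k → ((k.choose a : ℕ) : F) ≠ 0)
    (f : Fin (2 * k) → F[X]) (hf : ∀ i, (f i).natDegree = k) (m : F[X]) :
    Nat.card (zsetG k P f m) ≤
      (2 * k) ^ (k * P + 1) * Fintype.card F ^ (2 * k * (P + 1) - (k * P + 1)) :=
  le_trans (footprint (zsetG k P f m) (wv' k P) (wv'_pos hk) (dml k P hk)
    (fun t => dml_mem_span hk hch f hf m t)) (card_std hk _)

end Pool.Agent.H598.FG
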